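import Pool.Agent.T2H17.RFV.Rf
import Pool.Agent.Y968.SV.Basic

/-!
# The soluble varieties whose finitely generated groups are residually finite

Let `V` be a soluble variety of groups. All finitely generated groups in `V` are residually finite
if and only if `V` satisfies a law of the form

`[x, y] = ∏ₖ wₖ [x, z^iₖ y z^-iₖ]^eₖ wₖ⁻¹`, all `iₖ ≠ 0`,

the `wₖ` being words in `x`, `y`, `z`; equivalently, if in all groups of `V` an element commuting
with all the conjugates `z^i y z^-i`, `i ≠ 0`, commutes with `y`; equivalently, if the finitely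
generated groups in `V` satisfy the maximal condition on normal subgroups; equivalently, if one
explicit 3-generator group in `V` is residually finite.
-/

set_option autoImplicit false

namespace Pool.Agent.Results.MP_364ede_al.Determination

open scoped commutatorElement

/-- `G` belongs to the variety of groups defined by the laws `w = 1`, `w ∈ W`. -/
def InVariety (W : Set (FreeGroup ℕ)) (G : Type) [Group G] : Prop :=
  ∀ w ∈ W, ∀ f : ℕ → G, FreeGroup.lift f w = 1

/-- the variety defined by `W` is soluble: the derived lengths of its groups are bounded. -/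
def SolubleVariety (W : Set (FreeGroup ℕ)) : Prop :=
  ∃ d : ℕ, ∀ (G : Type) [Group G], InVariety W G → derivedSeries G d = ⊥

/-- `G` is generated by three elements. -/
def ThreeGenerated (G : Type) [Group G] : Prop :=
  ∃ a b c : G, Subgroup.closure {a, b, c} = ⊤

/-- data of a law `[x, y] = ∏ₖ wₖ [x, z^iₖ y z^-iₖ]^eₖ wₖ⁻¹` in three variables; the `wₖ` are words
in `x`, `y`, `z` (the free generators `0`, `1`, `2`). -/
structure Law where
  n : ℕ
  w : Fin n → FreeGroup (Fin 3)
  i : Fin n → ℤ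
  e : Fin n → ℤ

/-- the law holds in the group `G`. -/
def Law.Holds (L : Law) (G : Type) [Group G] : Prop :=
  ∀ x y z : G, ⁅x, y⁆ = (List.ofFn fun k : Fin L.n =>
    FreeGroup.lift ![x, y, z] (L.w k) * ⁅x, z ^ (L.i k) * y * z ^ (-(L.i k))⁆ ^ (L.e k) *
      (FreeGroup.lift ![x, y, z] (L.w k))⁻¹).prod

/-- `G` satisfies the maximal condition on normal subgroups: every normal subgroup of `G` is the
normal closure of a finite set. -/
def MaxNormal (G : Type) [Group G] : Prop :=
  ∀ N : Subgroup G, N.Normal → ∃ S : Finset G, N = Subgroup.normalClosure (S : Set G)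

/-- `G` is Hopfian: every surjective endomorphism is injective. -/
def Hopfian (G : Type) [Group G] : Prop :=
  ∀ φ : G →* G, Function.Surjective φ → Function.Injective φ

/-- the lower central series of the group `H`, as subgroups of `G`. -/
def lcs {G : Type} [Group G] (H : Subgroup G) : ℕ → Subgroup G
  | 0 => H
  | k + 1 => ⁅lcs H k, H⁆

/-- `G` is nilpotent-by-(nilpotent-by-finite): it has a normal subgroup `H` of finite index such
that some term of the lower central series of `H` is nilpotent. -/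
def NilpotentByNilpotentByFinite (G : Type) [Group G] : Prop :=
  ∃ H : Subgroup G, H.Normal ∧ H.FiniteIndex ∧ ∃ k c : ℕ, lcs (lcs H k) c = ⊥

/-- the variety defined by `W` is small: every family of pairwise non-isomorphic finitely generated
groups in it has fewer than `2^ℵ₀` members. -/
def SmallVariety (W : Set (FreeGroup ℕ)) : Prop :=
  ∀ (ι : Type) (G : ι → Type) [∀ i, Group (G i)], (∀ i, Group.FG (G i)) →
    (∀ i, InVariety W (G i)) → (∀ i j, Nonempty (G i ≃* G j) → i = j) →
    Cardinal.mk ι < Cardinal.continuum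

/-- the relators of the test group: all values of the words of `W` in the free group on `b`, `m`,
`t` (the free generators `0`, `1`, `2`), and the commutators `[b, t^(-k) m t^k]`, `k ≥ 0`. -/
def relators (W : Set (FreeGroup ℕ)) : Set (FreeGroup (Fin 3)) :=
  {x | ∃ w ∈ W, ∃ f : ℕ → FreeGroup (Fin 3), x = FreeGroup.lift f w} ∪
    {x | ∃ k : ℕ, x = ⁅(FreeGroup.of 0 : FreeGroup (Fin 3)),
      FreeGroup.of 2 ^ (-(k : ℤ)) * FreeGroup.of 1 * FreeGroup.of 2 ^ (k : ℤ)⁆}

/-- the test group of the variety defined by `W`. -/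
abbrev TestGroup (W : Set (FreeGroup ℕ)) : Type :=
  FreeGroup (Fin 3) ⧸ Subgroup.normalClosure (relators W)

open Pool.Agent.H53R2 Pool.Agent.Y968.SV Pool.Agent.T2H17.RFV

theorem testEquiv (W : Set (FreeGroup ℕ)) :
    Nonempty ((RF W 3 ⧸ Subgroup.normalClosure {x : RF W 3 | ∃ k : ℕ, x =
      ⁅(RF.gen W 0 : RF W 3), RF.gen W 2 ^ (-(k : ℤ)) * RF.gen W 1 * RF.gen W 2 ^ (k : ℤ)⁆}) ≃*
      TestGroup W) := by
  have h := quot_two {x | ∃ w ∈ W, ∃ f : ℕ → FreeGroup (Fin 3), x = FreeGroup.lift f w}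
    {x | ∃ k : ℕ, x = ⁅(FreeGroup.of 0 : FreeGroup (Fin 3)),
      FreeGroup.of 2 ^ (-(k : ℤ)) * FreeGroup.of 1 * FreeGroup.of 2 ^ (k : ℤ)⁆}
  have himg : QuotientGroup.mk' (verb W 3) ''
      {x | ∃ k : ℕ, x = ⁅(FreeGroup.of 0 : FreeGroup (Fin 3)),
        FreeGroup.of 2 ^ (-(k : ℤ)) * FreeGroup.of 1 * FreeGroup.of 2 ^ (k : ℤ)⁆} =
      {x : RF W 3 | ∃ k : ℕ, x =
        ⁅(RF.gen W 0 : RF W 3), RF.gen W 2 ^ (-(k : ℤ)) * RF.gen W 1 * RF.gen W 2 ^ (k : ℤ)⁆} := by
    ext x
    constructor
    · rintro ⟨_, ⟨k, rfl⟩, rfl⟩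
      refine ⟨k, ?_⟩
      rw [map_commutatorElement, map_mul, map_mul, map_zpow, map_zpow]
      rfl
    · rintro ⟨k, rfl⟩
      refine ⟨_, ⟨k, rfl⟩, ?_⟩
      rw [map_commutatorElement, map_mul, map_mul, map_zpow, map_zpow]
      rfl
  have h2 : Nonempty ((RF W 3 ⧸ Subgroup.normalClosure (QuotientGroup.mk' (verb W 3) ''
      {x | ∃ k : ℕ, x = ⁅(FreeGroup.of 0 : FreeGroup (Fin 3)),
        FreeGroup.of 2 ^ (-(k : ℤ)) * FreeGroup.of 1 * FreeGroup.of 2 ^ (k : ℤ)⁆})) ≃*
      TestGroup W) := h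
  rw [himg] at h2
  exact h2

theorem threeGen (W : Set (FreeGroup ℕ)) (N : Subgroup (RF W 3)) [N.Normal] :
    ThreeGenerated (RF W 3 ⧸ N) := by
  refine ⟨QuotientGroup.mk' N (RF.gen W 0), QuotientGroup.mk' N (RF.gen W 1),
    QuotientGroup.mk' N (RF.gen W 2), ?_⟩
  rw [← gen_quot W 3 N]
  congr 1
  ext x
  constructor
  · rintro (rfl | rfl | rfl)
    · exact ⟨0, rfl⟩
    · exact ⟨1, rfl⟩
    · exact ⟨2, rfl⟩
  · rintro ⟨i, rfl⟩
    fin_cases i
    · exact Or.inl rfl
    · exact Or.inr (Or.inl rfl)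
    · exact Or.inr (Or.inr rfl)

theorem lcs_eq {G : Type} [Group G] (H : Subgroup G) (k : ℕ) : lcs H k = Lw H k H := by
  induction k with
  | zero => rfl
  | succ k ih => rw [Lw_succ, ← ih]; rfl

theorem nnf_of_vn {G : Type} [Group G] (h : VN G) : NilpotentByNilpotentByFinite G := by
  obtain ⟨H, h1, h2, k, c, h3⟩ := h
  refine ⟨H, h1, h2, k, c, ?_⟩
  rw [lcs_eq, lcs_eq, h3]

/-- Mal'cev: finitely generated residually finite groups are Hopfian. -/
theorem hopf_of_rf {G : Type} [Group G] (hfg : Group.FG G) (h : Group.ResiduallyFinite G) :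
    Hopf G := by
  intro φ hφ
  rw [injective_iff_map_eq_one]
  intro x hx
  by_contra hne
  obtain ⟨N, hN⟩ := Group.residuallyFinite_iff_exists_finiteIndexNormalSubgroup.1 h x hne
  have hfin : Finite (G ⧸ N.toSubgroup) := Subgroup.finite_quotient_of_finiteIndex
  obtain ⟨S, hS⟩ := hfg.out
  have hhom : Finite (G →* G ⧸ N.toSubgroup) := by
    refine Finite.of_injective (β := S → G ⧸ N.toSubgroup) (fun f s => f s) ?_
    intro f g hfg
    refine MonoidHom.eq_of_eqOn_dense hS ?_
    intro s hs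
    exact congrFun hfg ⟨s, hs⟩
  let ψ : ℕ → (G →* G) := fun n => Nat.rec (MonoidHom.id G) (fun _ f => φ.comp f) n
  have hs : ∀ (n : ℕ) (y : G), ψ (n + 1) y = φ (ψ n y) := fun n y => rfl
  have hsurj : ∀ n : ℕ, Function.Surjective (ψ n) := by
    intro n
    induction n with
    | zero => intro y; exact ⟨y, rfl⟩
    | succ n ih =>
      intro y
      obtain ⟨y, rfl⟩ := hφ y
      obtain ⟨z, rfl⟩ := ih y
      exact ⟨z, rfl⟩
  have hker : ∀ (k i : ℕ) (y : G), ψ i y = x → ψ (i + k + 1) y = 1 := by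
    intro k i y hy
    induction k with
    | zero =>
      have h5 : ψ (i + 0 + 1) y = φ (ψ i y) := hs _ _
      rw [h5, hy, hx]
    | succ k ih =>
      have h5 : ψ (i + (k + 1) + 1) y = φ (ψ (i + k + 1) y) := hs (i + (k + 1)) y
      rw [h5, ih, map_one]
  have key : ∀ i j : ℕ, i < j → (QuotientGroup.mk' N.toSubgroup).comp (ψ i) ≠
      (QuotientGroup.mk' N.toSubgroup).comp (ψ j) := by
    intro i j hij heq
    obtain ⟨y, hy⟩ := hsurj i x
    have h1 := DFunLike.congr_fun heq y
    rw [MonoidHom.comp_apply, MonoidHom.comp_apply, hy] at h1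
    have h2 : ψ j y = 1 := by
      have := hker (j - i - 1) i y hy
      rwa [show i + (j - i - 1) + 1 = j by omega] at this
    rw [h2, map_one] at h1
    exact hN ((QuotientGroup.eq_one_iff x).1 h1)
  obtain ⟨i, j, hij, heq⟩ := Finite.exists_ne_map_eq_of_infinite
    (fun n : ℕ => (QuotientGroup.mk' N.toSubgroup).comp (ψ n))
  rcases lt_or_gt_of_ne hij with hlt | hlt
  · exact key i j hlt heq
  · exact key j i hlt heq.symm

theorem rf_equiv {G H : Type} [Group G] [Group H] (e : G ≃* H) (h : Group.ResiduallyFinite G) :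
    Group.ResiduallyFinite H := by
  rw [Group.residuallyFinite_iff_exists_finiteIndex] at h ⊢
  intro g hg
  obtain ⟨N, hN, hgN⟩ := h (e.symm g) (by
    intro h1
    apply hg
    rw [← e.apply_symm_apply g, h1, map_one])
  refine ⟨N.comap e.symm.toMonoidHom, ⟨?_⟩, hgN⟩
  rw [Subgroup.index_comap_of_surjective _ e.symm.surjective]
  exact hN.index_ne_zero

/-- the law given by the data of a universal identity -/
def lawOf (u : UI) : Law := ⟨u.n, u.w, u.i, u.e⟩

theorem comm_of_prod {G : Type} [Group G] (L : Law) (h : L.Holds G) (x y z : G)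
    (hc : ∀ k, x * (z ^ (L.i k) * y * z ^ (-(L.i k))) = (z ^ (L.i k) * y * z ^ (-(L.i k))) * x) :
    x * y = y * x := by
  have h1 := h x y z
  have h2 : (fun k : Fin L.n =>
    FreeGroup.lift ![x, y, z] (L.w k) * ⁅x, z ^ (L.i k) * y * z ^ (-(L.i k))⁆ ^ (L.e k) *
      (FreeGroup.lift ![x, y, z] (L.w k))⁻¹) = fun _ => 1 := by
    funext k
    rw [commutatorElement_eq_one_iff_mul_comm.2 (hc k), one_zpow, mul_one, mul_inv_cancel]
  rw [h2, List.ofFn_const, List.prod_replicate, one_pow] at h1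
  exact commutatorElement_eq_one_iff_mul_comm.1 h1

/-- one-sided extraction -/
theorem extract_neg (W : Set (FreeGroup ℕ))
    (h : ⁅(RF.gen W 0 : RF W 3), RF.gen W 1⁆ ∈ Subgroup.normalClosure
      {x : RF W 3 | ∃ j : ℤ, j < 0 ∧
        x = ⁅(RF.gen W 0 : RF W 3), RF.gen W 2 ^ j * RF.gen W 1 * RF.gen W 2 ^ (-j)⁆}) :
    ∃ L : Law, (∀ k, L.i k < 0) ∧ ∀ (G : Type) [Group G], InVariety W G → L.Holds G := by
  obtain ⟨n, g, s, e, hs, hx⟩ := mem_normalClosure_prod _ _ h
  choose kk hk0 hkk using hs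
  choose w hw using fun i => QuotientGroup.mk'_surjective (verb W 3) (g i)
  refine ⟨⟨n, w, kk, e⟩, hk0, ?_⟩
  intro G _ hG' b' m' t'
  have hG : InVar W G := hG'
  have h1 := congrArg (RF.lift hG ![b', m', t']) hx
  have gb : RF.lift hG ![b', m', t'] (RF.gen W 0) = b' := RF.lift_gen hG ![b', m', t'] 0
  have gm : RF.lift hG ![b', m', t'] (RF.gen W 1) = m' := RF.lift_gen hG ![b', m', t'] 1
  have gt : RF.lift hG ![b', m', t'] (RF.gen W 2) = t' := RF.lift_gen hG ![b', m', t'] 2
  rw [map_commutatorElement, gb, gm, map_list_prod, List.map_ofFn] at h1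
  rw [h1]
  congr 2
  funext i
  change RF.lift hG ![b', m', t'] (g i * s i ^ e i * (g i)⁻¹) = _
  rw [map_mul, map_mul, map_inv, map_zpow, hkk, map_commutatorElement, map_mul, map_mul, map_zpow,
    map_zpow, gb, gm, gt, ← hw i, RF.lift_mk]

/-- **The soluble varieties all of whose finitely generated groups are residually finite.** For a
soluble variety of groups `V` the following are equivalent:

1. all finitely generated groups in `V` are residually finite;
2. all 3-generator groups in `V` are residually finite;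
3. the test group `⟨b, m, t | [b, t^(-k) m t^k] = 1, k ≥ 0⟩` of `V` is residually finite;
4. `V` satisfies a law `[x, y] = ∏ₖ wₖ [x, z^iₖ y z^-iₖ]^eₖ wₖ⁻¹` with all `iₖ < 0`;
5. `V` satisfies a law `[x, y] = ∏ₖ wₖ [x, z^iₖ y z^-iₖ]^eₖ wₖ⁻¹` with all `iₖ ≠ 0`;
6. for all elements `x`, `y`, `z` of a group in `V`, if `x` commutes with `z^i y z^-i` for all
   `i < 0` then `x` commutes with `y`;
7. for all elements `x`, `y`, `z` of a group in `V`, if `x` commutes with `z^i y z^-i` for all
   `i ≠ 0` then `x` commutes with `y`;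
8. all finitely generated groups in `V` satisfy the maximal condition on normal subgroups;
9. all finitely generated groups in `V` are Hopfian;
10. `V` contains fewer than `2^ℵ₀` finitely generated groups up to isomorphism.

Moreover the finitely generated groups in such a variety are nilpotent-by-(nilpotent-by-finite). -/
theorem result (W : Set (FreeGroup ℕ)) (hsol : SolubleVariety W) :
    List.TFAE [
      ∀ (G : Type) [Group G], Group.FG G → InVariety W G → Group.ResiduallyFinite G,
      ∀ (G : Type) [Group G], ThreeGenerated G → InVariety W G → Group.ResiduallyFinite G,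
      Group.ResiduallyFinite (TestGroup W),
      ∃ L : Law, (∀ k, L.i k < 0) ∧ ∀ (G : Type) [Group G], InVariety W G → L.Holds G,
      ∃ L : Law, (∀ k, L.i k ≠ 0) ∧ ∀ (G : Type) [Group G], InVariety W G → L.Holds G,
      ∀ (G : Type) [Group G], InVariety W G → ∀ x y z : G,
        (∀ i : ℤ, i < 0 → x * (z ^ i * y * z ^ (-i)) = (z ^ i * y * z ^ (-i)) * x) →
        x * y = y * x,
      ∀ (G : Type) [Group G], InVariety W G → ∀ x y z : G,
        (∀ i : ℤ, i ≠ 0 → x * (z ^ i * y * z ^ (-i)) = (z ^ i * y * z ^ (-i)) * x) →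
        x * y = y * x,
      ∀ (G : Type) [Group G], Group.FG G → InVariety W G → MaxNormal G,
      ∀ (G : Type) [Group G], Group.FG G → InVariety W G → Hopfian G,
      SmallVariety W] ∧
    ((∀ (G : Type) [Group G], Group.FG G → InVariety W G → Group.ResiduallyFinite G) →
      ∀ (G : Type) [Group G], Group.FG G → InVariety W G → NilpotentByNilpotentByFinite G) := by
  obtain ⟨d, hd⟩ := hsol
  obtain ⟨e⟩ := testEquiv W
  have key : (∃ L : Law, (∀ k, L.i k ≠ 0) ∧ ∀ (G : Type) [Group G], InVariety W G → L.Holds G) →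
      ∃ u : UI, ∀ (G : Type) [Group G], InVariety W G → u.Grp G := by
    rintro ⟨L, hL, h⟩
    exact ⟨⟨L.n, L.w, L.i, L.e, hL⟩, fun G _ hG => h G hG⟩
  have hfgT : Group.FG (TestGroup W) := QuotientGroup.fg _
  have htest : Hopf (TestGroup W) →
      ∃ L : Law, (∀ k, L.i k < 0) ∧ ∀ (G : Type) [Group G], InVariety W G → L.Holds G := by
    intro hT
    obtain ⟨α, hα1, hα2⟩ := J_aut W 3 1 2 (by decide)
    have hαb : α (RF.gen W 0) = RF.gen W 0 := hα1 0 (by decide)
    have hαt : α (RF.gen W 2) = RF.gen W 2 := hα1 2 (by decide)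
    have hρ : ∀ k : ℤ, (α ^ k) ⁅(RF.gen W 0 : RF W 3), RF.gen W 1⁆ =
        ⁅(RF.gen W 0 : RF W 3), RF.gen W 2 ^ k * RF.gen W 1 * RF.gen W 2 ^ (-k)⁆ := by
      intro k
      rw [map_commutatorElement, zpow_fixed α _ hαb, zpow_conj α _ _ hαt hα2]
    have hT' := Hopf.of_equiv e.symm hT
    have hset : {x : RF W 3 | ∃ k : ℕ, x = ⁅(RF.gen W 0 : RF W 3),
        RF.gen W 2 ^ (-(k : ℤ)) * RF.gen W 1 * RF.gen W 2 ^ (k : ℤ)⁆} =
        {x : RF W 3 | ∃ k : ℕ, x = (α ^ (-(k : ℤ))) ⁅(RF.gen W 0 : RF W 3), RF.gen W 1⁆} := by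
      ext x
      simp only [Set.mem_ofPred_eq, hρ, neg_neg]
    rw [hset] at hT'
    apply extract_neg W
    refine Subgroup.normalClosure_mono ?_ (hopf_auto' α _ hT')
    rintro _ ⟨k, rfl⟩
    exact ⟨-((k : ℤ) + 1), by omega, hρ _⟩
  have hmain : (∃ L : Law, (∀ k, L.i k ≠ 0) ∧ ∀ (G : Type) [Group G], InVariety W G → L.Holds G) →
      ∀ (G : Type) [Group G], Group.FG G → InVariety W G → VN G ∧ MaxN G := by
    intro h G _ hfg hG
    obtain ⟨u, hu⟩ := key h
    exact U_main u d G (hu G hG) (hd G hG)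
  have hlaw : (∀ (G : Type) [Group G], InVariety W G → ∀ x y z : G,
        (∀ i : ℤ, i ≠ 0 → x * (z ^ i * y * z ^ (-i)) = (z ^ i * y * z ^ (-i)) * x) →
        x * y = y * x) →
      ∃ L : Law, (∀ k, L.i k ≠ 0) ∧ ∀ (G : Type) [Group G], InVariety W G → L.Holds G := by
    intro h
    obtain ⟨u, hu⟩ := M_extract W (by
      set D : Subgroup (RF W 3) := Subgroup.normalClosure
        {x : RF W 3 | ∃ j : ℤ, j ≠ 0 ∧
          x = ⁅(RF.gen W 0 : RF W 3), RF.gen W 2 ^ j * RF.gen W 1 * RF.gen W 2 ^ (-j)⁆} with hD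
      have h1 := h (RF W 3 ⧸ D) ((RF_inVar W 3).quot D) (QuotientGroup.mk' D (RF.gen W 0))
        (QuotientGroup.mk' D (RF.gen W 1)) (QuotientGroup.mk' D (RF.gen W 2)) (by
          intro i hi
          rw [← commutatorElement_eq_one_iff_mul_comm, ← map_zpow, ← map_zpow, ← map_mul,
            ← map_mul, ← map_commutatorElement, QuotientGroup.mk'_apply, QuotientGroup.eq_one_iff]
          exact Subgroup.subset_normalClosure ⟨i, hi, rfl⟩)
      rw [← commutatorElement_eq_one_iff_mul_comm, ← map_commutatorElement,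
        QuotientGroup.mk'_apply, QuotientGroup.eq_one_iff] at h1
      exact h1)
    exact ⟨lawOf u, u.hi, fun G _ hG => hu G hG⟩
  constructor
  · tfae_have 1 → 2 := by
      rintro h G _ ⟨a, b, c, habc⟩ hG
      classical
      refine h G ⟨⟨({a, b, c} : Finset G), ?_⟩⟩ hG
      rw [← habc]
      congr 1
      simp
    tfae_have 2 → 3 := by
      intro h
      exact rf_equiv e (h _ (threeGen W _) ((RF_inVar W 3).quot _))
    tfae_have 3 → 4 := fun h => htest (hopf_of_rf hfgT h)
    tfae_have 4 → 6 := by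
      rintro ⟨L, hL, h⟩ G _ hG x y z hc
      exact comm_of_prod L (h G hG) x y z (fun k => hc _ (hL k))
    tfae_have 6 → 7 := by
      intro h G _ hG x y z hc
      exact h G hG x y z (fun i hi => hc i hi.ne)
    tfae_have 7 → 5 := hlaw
    tfae_have 5 → 1 := by
      intro h G _ hfg hG
      obtain ⟨u, hu⟩ := key h
      rw [Group.residuallyFinite_iff_exists_finiteIndex]
      intro g hg
      obtain ⟨N, _, hN, hgN⟩ := rf_of_UI u d G (hu G hG) (hd G hG) g hg
      exact ⟨N, hN, hgN⟩
    tfae_have 5 → 8 := by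
      intro h G _ hfg hG N hN
      exact MaxN.normalClosure (hmain h G hfg hG).2 N hN
    tfae_have 8 → 9 := by
      intro h G _ hfg hG φ hφ
      exact hopfian_of_maxN (maxN_of_closure (h G hfg hG)) φ hφ
    tfae_have 9 → 4 := by
      intro h
      apply htest
      refine Hopf.of_equiv e ?_
      exact h _ (QuotientGroup.fg _) ((RF_inVar W 3).quot _)
    tfae_have 5 → 10 := by
      intro h ι G _ hfg hG hne
      have : Countable ι := by
        refine countable_of_maxN W (fun n => ?_) ι G hfg hG hne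
        have : Group.FG (RF W n) := QuotientGroup.fg _
        exact (hmain h (RF W n) this (RF_inVar W n)).2
      exact (Cardinal.mk_le_aleph0_iff.2 this).trans_lt Cardinal.aleph0_lt_continuum
    tfae_have 10 → 5 := by
      intro h
      obtain ⟨u, hu⟩ := exists_UI_small (W := W) h
      exact ⟨lawOf u, u.hi, fun G _ hG => hu G hG⟩
    tfae_finish
  · intro h G _ hfg hG
    refine nnf_of_vn (hmain ?_ G hfg hG).1
    obtain ⟨L, hL, h'⟩ := htest (hopf_of_rf hfgT (rf_equiv e
      (h _ (QuotientGroup.fg _) ((RF_inVar W 3).quot _))))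
    exact ⟨L, fun k => (hL k).ne, h'⟩

end Pool.Agent.Results.MP_364ede_al.Determination
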